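import Mathlib

namespace Pool.Agent.H.MP_0fa314_co

open Finset

abbrev U (n : ℕ) := Fin 3 × Fin n × Fin n × Fin n

def D {n : ℕ} (u v : U n) : Prop :=
  (u.1.val = 0 ∧ v.1.val = 1 ∧ u.2.1.val = u.2.2.1.val ∧ v.2.1.val = u.2.2.1.val ∧
    v.2.2.1.val = u.2.2.2.val ∧ u.2.2.1.val < u.2.2.2.val ∧ u.2.2.2.val < v.2.2.2.val) ∨
  (u.1.val = 1 ∧ v.1.val = 2 ∧ v.2.1.val = u.2.1.val ∧ v.2.2.1.val = u.2.2.1.val ∧
    v.2.2.2.val = u.2.2.2.val ∧ u.2.1.val < u.2.2.1.val ∧ u.2.2.1.val < u.2.2.2.val) ∨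
  (u.1.val = 2 ∧ v.1.val = 0 ∧ v.2.1.val = u.2.2.1.val ∧ v.2.2.1.val = u.2.2.1.val ∧
    v.2.2.2.val = u.2.2.2.val ∧ u.2.1.val < u.2.2.1.val ∧ u.2.2.1.val < u.2.2.2.val)

def AU {n : ℕ} (u v : U n) : Prop := D u v ∨ D v u

theorem u1 {n : ℕ} {u v : U n} (h : AU u v) : u.1.val ≠ v.1.val := by
  unfold AU D at h
  omega

theorem u3 {n : ℕ} {a b c d : U n} (h1 : AU a b) (h2 : AU b c) (h3 : AU c d)
    (h : a.1.val = d.1.val) : a.2.2.1.val < a.2.2.2.val ∧ d.2.2.1.val < d.2.2.2.val ∧
      (a.2.2.2.val = d.2.2.1.val ∨ d.2.2.2.val = a.2.2.1.val) := by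
  unfold AU D at h1 h2 h3
  rcases h1 with (h1 | h1 | h1) | (h1 | h1 | h1) <;>
  (rcases h2 with (h2 | h2 | h2) | (h2 | h2 | h2) <;> omega)

theorem u5 {n : ℕ} {a b c d e : U n} (h1 : AU a b) (h2 : AU b c) (h3 : AU c d) (h4 : AU d e)
    (h5 : AU e a) : False := by
  unfold AU D at h1 h2 h3 h4 h5
  rcases h1 with (h1 | h1 | h1) | (h1 | h1 | h1) <;>
  (rcases h2 with (h2 | h2 | h2) | (h2 | h2 | h2) <;> omega)

abbrev X (n : ℕ) := Fin 2 × Fin 3 × (Fin n → Bool) × U n

def Ok {n : ℕ} (u : U n) (S : Fin n → Bool) : Prop :=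
  u.2.2.1.val < u.2.2.2.val → S u.2.2.1 = true ∧ S u.2.2.2 = false

def UX {n : ℕ} (u : U n) (x : X n) : Prop := x.1.val = 0 ∧ x.2.1.val = u.1.val ∧ Ok u x.2.2.1

def adj {n : ℕ} : U n ⊕ X n → U n ⊕ X n → Prop
  | .inl u, .inl v => AU u v
  | .inl u, .inr x => UX u x
  | .inr x, .inl u => UX u x
  | .inr x, .inr y => x.1.val ≠ y.1.val ∧ x.2.1.val = y.2.1.val

def G (n : ℕ) : SimpleGraph (U n ⊕ X n) where
  Adj := adj
  symm := ⟨by
    rintro (u | x) (v | y) h
    · exact Or.symm h
    · exact h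
    · exact h
    · exact ⟨h.1.symm, h.2.symm⟩⟩
  loopless := ⟨by
    rintro (u | x) h
    · exact u1 h rfl
    · exact h.1 rfl⟩

theorem one {n : ℕ} {a b c d : U n} {x : X n} (h1 : AU a b) (h2 : AU b c) (h3 : AU c d)
    (h4 : UX d x) (h5 : UX a x) : False := by
  obtain ⟨k1, k2, k3⟩ := u3 h1 h2 h3 (h5.2.1.symm.trans h4.2.1)
  have a1 := h5.2.2 k1
  have a2 := h4.2.2 k2
  rcases k3 with k3 | k3
  · rw [Fin.ext k3, a2.1] at a1
    exact absurd a1.2 (by simp)
  · rw [Fin.ext k3, a1.1] at a2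
    exact absurd a2.2 (by simp)

def isl {n : ℕ} : U n ⊕ X n → ℕ
  | .inl _ => 1
  | .inr _ => 0

def cls {n : ℕ} : U n ⊕ X n → ℕ
  | .inl u => u.1.val
  | .inr x => x.2.1.val

def par {n : ℕ} : U n ⊕ X n → ℕ
  | .inl _ => 1
  | .inr x => x.1.val

theorem fact {n : ℕ} {x y : U n ⊕ X n} (h : adj x y) :
    (isl x = 1 ∧ isl y = 1 ∧ cls x ≠ cls y) ∨ (cls x = cls y ∧ par x + par y = 1) := by
  rcases x with u | x <;> rcases y with v | y
  · exact Or.inl ⟨rfl, rfl, u1 h⟩
  · exact Or.inr ⟨h.2.1.symm, by simp only [par]; have := h.1; omega⟩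
  · exact Or.inr ⟨h.2.1, by simp only [par]; have := h.1; omega⟩
  · refine Or.inr ⟨h.2, ?_⟩
    simp only [par]
    have := h.1
    have := x.1.2
    have := y.1.2
    omega

theorem no5 {n : ℕ} {a b c d e : U n ⊕ X n} (h1 : adj a b) (h2 : adj b c) (h3 : adj c d)
    (h4 : adj d e) (h5 : adj e a) : False := by
  have f1 := fact h1
  have f2 := fact h2
  have f3 := fact h3
  have f4 := fact h4
  have f5 := fact h5
  rcases a with a | a <;> rcases b with b | b <;> rcases c with c | c <;> rcases d with d | d <;>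
    rcases e with e | e <;>
  first
  | exact u5 h1 h2 h3 h4 h5
  | exact one h1 h2 h3 h4 h5
  | exact one h2 h3 h4 h5 h1
  | exact one h3 h4 h5 h1 h2
  | exact one h4 h5 h1 h2 h3
  | exact one h5 h1 h2 h3 h4
  | (simp only [isl, cls, par] at f1 f2 f3 f4 f5; omega)

theorem free5 (n : ℕ) : (SimpleGraph.cycleGraph 5).Free (G n) := by
  rintro ⟨f⟩
  have h : ∀ i j : Fin 5, (SimpleGraph.cycleGraph 5).Adj i j → adj (f i) (f j) :=
    fun i j h => f.toHom.map_rel h
  exact no5 (h 0 1 (by decide)) (h 1 2 (by decide)) (h 2 3 (by decide)) (h 3 4 (by decide))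
    (h 4 0 (by decide))

theorem free3 (n : ℕ) : (SimpleGraph.cycleGraph 3).Free (G n) := by
  rintro ⟨f⟩
  have h : ∀ i j : Fin 3, (SimpleGraph.cycleGraph 3).Adj i j → adj (f i) (f j) :=
    fun i j h => f.toHom.map_rel h
  exact no5 (h 0 1 (by decide)) (h 1 2 (by decide)) (h 2 0 (by decide)) (h 0 1 (by decide))
    (h 1 0 (by decide))

open Classical in
theorem ok_card {n : ℕ} (u : U n) : 2 ^ n ≤ 4 * (univ.filter (fun S => Ok u S)).card := by
  obtain ⟨c, i, j, k⟩ := u
  have := card_le_mul_card_image_of_maps_to (s := (univ : Finset (Fin n → Bool)))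
    (t := univ.filter (fun S => Ok (c, i, j, k) S))
    (f := fun S => Function.update (Function.update S j true) k false) (by
      intro S _
      refine mem_filter.2 ⟨mem_univ _, fun h => ?_⟩
      have hjk : j ≠ k := fun e => by
        simp only [e] at h
        omega
      simp [Function.update_of_ne hjk]) 4 (by
      intro T _
      have : univ.filter (fun S => Function.update (Function.update S j true) k false = T) ⊆
          (univ : Finset (Bool × Bool)).image
            (fun q => Function.update (Function.update T j q.1) k q.2) := by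
        intro S hS
        refine mem_image.2 ⟨(S j, S k), mem_univ _, ?_⟩
        rw [← (mem_filter.1 hS).2]
        ext l
        by_cases a : l = k
        · simp [a]
        · by_cases b : l = j
          · subst b; simp [Function.update_of_ne a]
          · simp [Function.update_of_ne a, Function.update_of_ne b]
      exact (card_le_card this).trans (card_image_le.trans (by simp)))
  simpa using this

theorem card_V (n : ℕ) : Fintype.card (U n ⊕ X n) ≤ 7 * (2 ^ n * Fintype.card (U n)) := by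
  have e : Fintype.card (X n) = 2 * (3 * (2 ^ n * Fintype.card (U n))) := by
    rw [Fintype.card_prod (Fin 2), Fintype.card_prod (Fin 3), Fintype.card_prod (Fin n → Bool)]
    simp only [Fintype.card_fin, Fintype.card_fun, Fintype.card_bool]
  rw [Fintype.card_sum, e]
  have : 1 ≤ 2 ^ n := Nat.one_le_two_pow
  nlinarith

theorem deg (n : ℕ) [DecidableRel (G n).Adj] (v : U n ⊕ X n) :
    2 ^ n * Fintype.card (U n) ≤ 4 * (G n).degree v := by
  classical
  rcases v with u | x
  · have h1 : ((univ.filter (fun S => Ok u S)) ×ˢ (univ : Finset (U n))).card ≤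
        (G n).degree (.inl u) := by
      rw [← SimpleGraph.card_neighborFinset_eq_degree]
      refine card_le_card_of_injOn (fun q => .inr (0, u.1, q.1, q.2)) ?_ ?_
      · intro q hq
        rw [mem_coe, mem_product, mem_filter] at hq
        rw [mem_coe, SimpleGraph.mem_neighborFinset]
        exact ⟨rfl, rfl, hq.1.2⟩
      · intro q _ q' _ e
        simp only [Sum.inr.injEq, Prod.mk.injEq, true_and] at e
        exact Prod.ext e.1 e.2
    rw [card_product, card_univ] at h1
    have h2 := ok_card u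
    calc 2 ^ n * Fintype.card (U n)
        ≤ 4 * (univ.filter (fun S => Ok u S)).card * Fintype.card (U n) :=
          Nat.mul_le_mul_right _ (by convert h2)
      _ ≤ _ := by rw [mul_assoc]; exact Nat.mul_le_mul_left _ h1
  · have h1 : (univ : Finset ((Fin n → Bool) × U n)).card ≤ (G n).degree (.inr x) := by
      rw [← SimpleGraph.card_neighborFinset_eq_degree]
      refine card_le_card_of_injOn (fun q => .inr (x.1 + 1, x.2.1, q.1, q.2)) ?_ ?_
      · intro q _
        rw [mem_coe, SimpleGraph.mem_neighborFinset]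
        refine ⟨?_, rfl⟩
        have : ∀ a : Fin 2, a.val ≠ (a + 1).val := by decide
        exact this _
      · intro q _ q' _ e
        simp only [Sum.inr.injEq, Prod.mk.injEq, true_and] at e
        exact Prod.ext e.1 e.2
    rw [card_univ, Fintype.card_prod] at h1
    simp only [Fintype.card_fun, Fintype.card_bool, Fintype.card_fin] at h1
    omega

theorem shift {n : ℕ} {W : Type} [Fintype W] (φ : Fin n → Fin n → W)
    (h : ∀ j k l, j < k → k < l → φ j k ≠ φ k l) : n ≤ 2 ^ Fintype.card W := by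
  classical
  have key : ∀ j k : Fin n, j < k → (univ.filter (fun l => j < l)).image (φ j) ≠
      (univ.filter (fun l => k < l)).image (φ k) := by
    intro j k hjk e
    have : φ j k ∈ (univ.filter (fun l => k < l)).image (φ k) :=
      e ▸ mem_image_of_mem _ (mem_filter.2 ⟨mem_univ _, hjk⟩)
    obtain ⟨l, hl, e'⟩ := mem_image.1 this
    exact h j k l hjk (mem_filter.1 hl).2 e'.symm
  have := Fintype.card_le_of_injective
    (fun j : Fin n => (univ.filter (fun l => j < l)).image (φ j)) (by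
      intro j k e
      by_contra hne
      rcases lt_or_gt_of_ne hne with a | a
      · exact key j k a e
      · exact key k j a e.symm)
  simpa using this

theorem big {n : ℕ} {W : Type} [Fintype W] (Γ : SimpleGraph W)
    (hΓ : (SimpleGraph.cycleGraph 3).Free Γ) (f : G n →g Γ) : n ≤ 2 ^ Fintype.card W := by
  classical
  refine shift (fun j k => f (.inl (0, j, j, k))) (fun j k l h1 h2 e => hΓ ?_)
  have h1' : j.val < k.val := h1
  have h2' : k.val < l.val := h2
  have a1 : Γ.Adj (f (.inl (0, j, j, k))) (f (.inl (1, j, k, l))) :=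
    f.map_rel (Or.inl (Or.inl ⟨rfl, rfl, rfl, rfl, rfl, h1', h2'⟩))
  have a2 : Γ.Adj (f (.inl (1, j, k, l))) (f (.inl (2, j, k, l))) :=
    f.map_rel (Or.inl (Or.inr (Or.inl ⟨rfl, rfl, rfl, rfl, rfl, h1', h2'⟩)))
  have a3 : Γ.Adj (f (.inl (2, j, k, l))) (f (.inl (0, k, k, l))) :=
    f.map_rel (Or.inl (Or.inr (Or.inr ⟨rfl, rfl, rfl, rfl, rfl, h1', h2'⟩)))
  have e' : f (.inl (0, j, j, k)) = f (.inl (0, k, k, l)) := e
  rw [← e'] at a3
  rw [SimpleGraph.cycleGraph_three_eq_top]
  have hc : Γ.IsNClique 3 _ := SimpleGraph.is3Clique_triple_iff.2 ⟨a1, a3.symm, a2⟩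
  exact (SimpleGraph.not_cliqueFree_iff_top_isContained 3).1 hc.not_cliqueFree

end Pool.Agent.H.MP_0fa314_co
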